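import Pool.Agent.Helper61.QE.St4

/-!
# Project QD, PART E, module ATC: the complement of the image of a small punctured disc
-/

open MeasureTheory Set Filter Topology Complex Metric
open scoped ContDiff ComplexConjugate ENNReal

namespace Pool.Agent.Helper78.QE

open Pool.Agent.Helper80.Bieb
open Pool.Agent.Helper61.QE (StATC)

/-- Outer inclusion. -/
lemma atc_outer {b : ℂ} {T : ℂ → ℂ} (hT : DifferentiableOn ℂ T (ball 0 1))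
    (hinj : InjOn (FF b T) (ball 0 1 \ {0})) {M : ℝ} (hM : ∀ z, ‖z‖ ≤ 1 / 2 → ‖T z‖ ≤ M)
    {ρ : ℝ} (hρ : 0 < ρ) (hρ2 : ρ ≤ 1 / 2) (hbρ : ‖b‖ * ρ ^ 2 ≤ 1 / 2) :
    (FF b T '' (closedBall 0 ρ \ {0}))ᶜ ⊆
      Amap (b * ρ ^ 2) '' closedBall 0 (ρ⁻¹ + 2 * ρ ^ 2 * M) := by
  set c : ℂ := b * ρ ^ 2 with hcdef
  have hM0 : 0 ≤ M := (norm_nonneg _).trans (hM 0 (by simp))
  have hcn : ‖c‖ ≤ 1 / 2 := by
    rw [hcdef, norm_mul, norm_pow, Complex.norm_real, Real.norm_eq_abs, abs_of_pos hρ]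
    exact hbρ
  have hR : 0 < ρ⁻¹ + 2 * ρ ^ 2 * M := by positivity
  have hFd := differentiableOn_FF b hT
  have hsub1 : ball (0 : ℂ) ρ \ {0} ⊆ ball 0 1 \ {0} :=
    sdiff_subset_sdiff_left (ball_subset_ball (by linarith))
  have hcover := cover (Φ := fun z => Bmap c (FF b T z)) hρ hR ?_ ?_ ?_ ?_
  · intro η hη
    refine ⟨Bmap c η, ?_, Amap_Bmap hcn _⟩
    by_contra hcon
    obtain ⟨z', hz', heq⟩ := hcover hcon
    have h1 : FF b T z' = η := by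
      have := congrArg (Amap c) heq
      simpa only [Amap_Bmap hcn] using this
    exact hη ⟨z', ⟨ball_subset_closedBall hz'.1, hz'.2⟩, h1⟩
  · -- continuity
    have hFc : ContinuousOn (FF b T) (closedBall 0 ρ \ {0}) :=
      hFd.continuousOn.mono (sdiff_subset_sdiff_left (closedBall_subset_ball (by linarith)))
    have hB : Continuous (fun η => Bmap c η) := by
      unfold Bmap
      refine Continuous.div_const ?_ _
      exact continuous_id.sub (continuous_const.mul Complex.continuous_conj)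
    exact hB.comp_continuousOn hFc
  · -- openness
    have hopen : IsOpen (FF b T '' (ball 0 ρ \ {0})) :=
      isOpen_image_of_injOn (isOpen_ball.sdiff isClosed_singleton) (hFd.mono hsub1)
        (hinj.mono hsub1)
    have heq : (fun z => Bmap c (FF b T z)) '' (ball 0 ρ \ {0})
        = Amap c ⁻¹' (FF b T '' (ball 0 ρ \ {0})) := by
      ext y
      simp only [Set.mem_image, Set.mem_preimage]
      constructor
      · rintro ⟨z, hz, rfl⟩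
        exact ⟨z, hz, (Amap_Bmap hcn _).symm⟩
      · rintro ⟨z, hz, h⟩
        exact ⟨z, hz, by rw [h, Bmap_Amap hcn]⟩
    rw [heq]
    exact hopen.preimage (Amap c).continuous
  · -- bound on the circle
    intro z hz
    have hz0 : z ≠ 0 := by
      rintro rfl
      simp at hz
      exact hρ.ne hz
    have h1 : FF b T z = Amap c z⁻¹ + z ^ 2 * T z := by
      rw [Amap_apply, FF, hcdef]
      have h2 : (starRingEnd ℂ z) * z = (ρ : ℂ) ^ 2 := by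
        rw [← Complex.normSq_eq_conj_mul_self, Complex.normSq_eq_norm_sq, hz]
        push_cast
        ring
      have hzc : (starRingEnd ℂ z) ≠ 0 := by simpa using hz0
      rw [map_inv₀, ← h2]
      field_simp
    change ‖Bmap c (FF b T z)‖ ≤ _
    rw [h1, Bmap_add, Bmap_Amap hcn]
    refine (norm_add_le _ _).trans ?_
    rw [norm_inv, hz]
    gcongr
    refine (norm_Bmap hcn _).trans ?_
    rw [norm_mul, norm_pow, hz]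
    have := hM z (by rw [hz]; exact hρ2)
    nlinarith [sq_nonneg ρ, mul_le_mul_of_nonneg_left this (sq_nonneg ρ)]
  · -- growth at the pole
    intro N
    have hden : 0 < 2 * |N| + ‖b‖ + M + 1 := by positivity
    refine ⟨min (1 / 2) (2 * |N| + ‖b‖ + M + 1)⁻¹, by positivity, ?_⟩
    intro z hz0 hz
    have hz1 : ‖z‖ < 1 / 2 := hz.trans_le (min_le_left _ _)
    have hz2 : ‖z‖ < (2 * |N| + ‖b‖ + M + 1)⁻¹ := hz.trans_le (min_le_right _ _)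
    have hzpos : 0 < ‖z‖ := norm_pos_iff.mpr hz0
    have h1 : 2 * |N| + ‖b‖ + M + 1 < ‖z‖⁻¹ := by
      rw [lt_inv_comm₀ hden hzpos]
      exact hz2
    have h2 : ‖z‖⁻¹ ≤ ‖FF b T z‖ + ‖b‖ + M := by
      have h3 : z⁻¹ = FF b T z - b * z - z ^ 2 * T z := by
        rw [FF]; ring
      calc ‖z‖⁻¹ = ‖FF b T z - b * z - z ^ 2 * T z‖ := by rw [← h3, norm_inv]
        _ ≤ ‖FF b T z‖ + ‖b * z‖ + ‖z ^ 2 * T z‖ := by
            refine (norm_sub_le _ _).trans ?_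
            gcongr
            exact norm_sub_le _ _
        _ ≤ ‖FF b T z‖ + ‖b‖ + M := by
            rw [norm_mul, norm_mul, norm_pow]
            have h4 := hM z hz1.le
            have h5 : ‖b‖ * ‖z‖ ≤ ‖b‖ := mul_le_of_le_one_right (norm_nonneg _) (by linarith)
            have h6 : ‖z‖ ^ 2 * ‖T z‖ ≤ M := by
              have : ‖z‖ ^ 2 ≤ 1 := by nlinarith
              nlinarith [norm_nonneg (T z)]
            linarith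
    have h7 : ‖FF b T z‖ ≤ 2 * ‖Bmap c (FF b T z)‖ := by
      have := norm_Amap hcn (Bmap c (FF b T z))
      rwa [Amap_Bmap hcn] at this
    have h8 : N ≤ |N| := le_abs_self N
    change N < ‖Bmap c (FF b T z)‖
    linarith

lemma one_sub_norm {c : ℂ} (hc : ‖c‖ ≤ 1 / 2) :
    ‖(1 : ℂ) - ((‖c‖ ^ 2 : ℝ) : ℂ)‖ = 1 - ‖c‖ ^ 2 := by
  have : (1 : ℂ) - ((‖c‖ ^ 2 : ℝ) : ℂ) = ((1 - ‖c‖ ^ 2 : ℝ) : ℂ) := by push_cast; ring
  rw [this, Complex.norm_real, Real.norm_eq_abs, abs_of_nonneg]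
  nlinarith [norm_nonneg c]

/-- The lower bound for `Bmap c` on the image of the punctured disc. -/
lemma atc_low {b z : ℂ} {ρ : ℝ} (hρ : 0 < ρ) (hbρ : ‖b‖ * ρ ^ 2 ≤ 1 / 2) (hz0 : z ≠ 0)
    (hz : ‖z‖ ≤ ρ) : ρ⁻¹ ≤ ‖Bmap (b * ρ ^ 2) (z⁻¹ + b * z)‖ := by
  set c : ℂ := b * ρ ^ 2 with hcdef
  have hcn' : ‖c‖ = ‖b‖ * ρ ^ 2 := by
    rw [hcdef, norm_mul, norm_pow, Complex.norm_real, Real.norm_eq_abs, abs_of_pos hρ]
  have hcn : ‖c‖ ≤ 1 / 2 := by rw [hcn']; exact hbρ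
  have h3 : 0 < 1 - ‖c‖ ^ 2 := by nlinarith [norm_nonneg c]
  rw [Bmap, norm_div, one_sub_norm hcn, le_div_iff₀ h3]
  have hτ : 0 < ‖z‖ := norm_pos_iff.mpr hz0
  have hzc : (starRingEnd ℂ z) ≠ 0 := by simpa using hz0
  have hid : (z⁻¹ + b * z) - c * (starRingEnd ℂ) (z⁻¹ + b * z) =
      z⁻¹ - (b * (((ρ ^ 2 - ‖z‖ ^ 2 : ℝ) : ℂ) / (starRingEnd ℂ z)) +
        ((‖b‖ ^ 2 * ρ ^ 2 : ℝ) : ℂ) * (starRingEnd ℂ z)) := by
    have e1 : (starRingEnd ℂ z) * z = ((‖z‖ ^ 2 : ℝ) : ℂ) := by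
      rw [← Complex.normSq_eq_conj_mul_self, Complex.normSq_eq_norm_sq]
    have e2 : b * (starRingEnd ℂ b) = ((‖b‖ ^ 2 : ℝ) : ℂ) := mul_conj_norm b
    have e3 : ((ρ ^ 2 - ‖z‖ ^ 2 : ℝ) : ℂ) = (ρ : ℂ) ^ 2 - (starRingEnd ℂ z) * z := by
      rw [e1]; push_cast; ring
    have e4 : ((‖b‖ ^ 2 * ρ ^ 2 : ℝ) : ℂ) = b * (starRingEnd ℂ b) * (ρ : ℂ) ^ 2 := by
      rw [e2]; push_cast; ring
    rw [e3, e4, hcdef, map_add, map_inv₀, map_mul]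
    field_simp
    ring
  rw [hid]
  have hn1 : ‖b * (((ρ ^ 2 - ‖z‖ ^ 2 : ℝ) : ℂ) / (starRingEnd ℂ z))‖ =
      ‖b‖ * ((ρ ^ 2 - ‖z‖ ^ 2) / ‖z‖) := by
    rw [norm_mul, norm_div, Complex.norm_real, RCLike.norm_conj, Real.norm_eq_abs, abs_of_nonneg]
    nlinarith
  have hn2 : ‖((‖b‖ ^ 2 * ρ ^ 2 : ℝ) : ℂ) * (starRingEnd ℂ z)‖ = ‖b‖ ^ 2 * ρ ^ 2 * ‖z‖ := by
    rw [norm_mul, Complex.norm_real, RCLike.norm_conj, Real.norm_eq_abs, abs_of_nonneg]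
    positivity
  have hlow : ‖z‖⁻¹ - (‖b‖ * ((ρ ^ 2 - ‖z‖ ^ 2) / ‖z‖) + ‖b‖ ^ 2 * ρ ^ 2 * ‖z‖) ≤
      ‖z⁻¹ - (b * (((ρ ^ 2 - ‖z‖ ^ 2 : ℝ) : ℂ) / (starRingEnd ℂ z)) +
        ((‖b‖ ^ 2 * ρ ^ 2 : ℝ) : ℂ) * (starRingEnd ℂ z))‖ := by
    refine le_trans ?_ (norm_sub_norm_le _ _)
    rw [norm_inv]
    have := norm_add_le (b * (((ρ ^ 2 - ‖z‖ ^ 2 : ℝ) : ℂ) / (starRingEnd ℂ z)))
      (((‖b‖ ^ 2 * ρ ^ 2 : ℝ) : ℂ) * (starRingEnd ℂ z))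
    rw [hn1, hn2] at this
    linarith
  refine le_trans ?_ hlow
  rw [hcn']
  set β : ℝ := ‖b‖ with hβ
  set τ : ℝ := ‖z‖ with hτdef
  have hβ0 : 0 ≤ β := norm_nonneg b
  have key : τ⁻¹ - (β * ((ρ ^ 2 - τ ^ 2) / τ) + β ^ 2 * ρ ^ 2 * τ) -
      ρ⁻¹ * (1 - (β * ρ ^ 2) ^ 2) = (1 - β * ρ ^ 2) * ((ρ - τ) * ((1 - β * (τ * ρ)) / (τ * ρ))) := by
    field_simp
    ring
  have hb1 : 0 ≤ 1 - β * ρ ^ 2 := by linarith
  have hb2 : 0 ≤ ρ - τ := by linarith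
  have hb3 : 0 ≤ 1 - β * (τ * ρ) := by
    have : β * (τ * ρ) ≤ β * ρ ^ 2 := by
      apply mul_le_mul_of_nonneg_left _ hβ0
      nlinarith
    linarith
  have hb4 : 0 ≤ (1 - β * ρ ^ 2) * ((ρ - τ) * ((1 - β * (τ * ρ)) / (τ * ρ))) := by
    have : 0 < τ * ρ := by positivity
    positivity
  linarith

/-- Inner inclusion. -/
lemma atc_inner {b : ℂ} {T : ℂ → ℂ} {M : ℝ} (hM : ∀ z, ‖z‖ ≤ 1 / 2 → ‖T z‖ ≤ M)
    {ρ : ℝ} (hρ : 0 < ρ) (hρ2 : ρ ≤ 1 / 2) (hbρ : ‖b‖ * ρ ^ 2 ≤ 1 / 2) :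
    Amap (b * ρ ^ 2) '' ball 0 (ρ⁻¹ - 2 * ρ ^ 2 * M) ⊆ (FF b T '' (closedBall 0 ρ \ {0}))ᶜ := by
  have hcn' : ‖b * (ρ : ℂ) ^ 2‖ = ‖b‖ * ρ ^ 2 := by
    rw [norm_mul, norm_pow, Complex.norm_real, Real.norm_eq_abs, abs_of_pos hρ]
  have hcn : ‖b * (ρ : ℂ) ^ 2‖ ≤ 1 / 2 := by rw [hcn']; exact hbρ
  have hM0 : 0 ≤ M := (norm_nonneg _).trans (hM 0 (by simp))
  rintro _ ⟨ξ, hξ, rfl⟩ ⟨z, ⟨hz1, hz2⟩, heq⟩
  have hz0 : z ≠ 0 := hz2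
  have hzρ : ‖z‖ ≤ ρ := by simpa using hz1
  have hξ' : ‖ξ‖ < ρ⁻¹ - 2 * ρ ^ 2 * M := by simpa using hξ
  have h1 : ξ = Bmap (b * ρ ^ 2) (FF b T z) := by
    rw [heq, Bmap_Amap hcn]
  have h2 : FF b T z = (z⁻¹ + b * z) + z ^ 2 * T z := rfl
  have h3 : ‖Bmap (b * ρ ^ 2) (z ^ 2 * T z)‖ ≤ 2 * ρ ^ 2 * M := by
    refine (norm_Bmap hcn _).trans ?_
    rw [norm_mul, norm_pow]
    have hT := hM z (hzρ.trans hρ2)
    have h4 : ‖z‖ ^ 2 ≤ ρ ^ 2 := pow_le_pow_left₀ (norm_nonneg z) hzρ 2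
    have h5 : ‖z‖ ^ 2 * ‖T z‖ ≤ ρ ^ 2 * M := mul_le_mul h4 hT (norm_nonneg _) (by positivity)
    linarith
  have h4 := atc_low hρ hbρ hz0 hzρ
  have h5 : ‖Bmap (b * ρ ^ 2) (z⁻¹ + b * z)‖ ≤ ‖ξ‖ + ‖Bmap (b * ρ ^ 2) (z ^ 2 * T z)‖ := by
    have : Bmap (b * ρ ^ 2) (z⁻¹ + b * z) = ξ - Bmap (b * ρ ^ 2) (z ^ 2 * T z) := by
      have h6 := Bmap_add (b * ρ ^ 2) (z⁻¹ + b * z) (z ^ 2 * T z)
      rw [h1, h2, h6, add_sub_cancel_right]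
    rw [this]
    exact norm_sub_le _ _
  linarith

theorem pATC : StATC := by
  intro b T M ρ hT hinj hM hρ hρ2 hbρ hρM
  have hM0 : 0 ≤ M := (norm_nonneg _).trans (hM 0 (by simp))
  have hcn' : ‖b * (ρ : ℂ) ^ 2‖ = ‖b‖ * ρ ^ 2 := by
    rw [norm_mul, norm_pow, Complex.norm_real, Real.norm_eq_abs, abs_of_pos hρ]
  have hdet : |(Amap (b * (ρ : ℂ) ^ 2)).det| = 1 - (‖b‖ * ρ ^ 2) ^ 2 := by
    rw [det_Amap, hcn', abs_of_nonneg]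
    have : 0 ≤ ‖b‖ * ρ ^ 2 := by positivity
    nlinarith
  have hd0 : 0 ≤ 1 - (‖b‖ * ρ ^ 2) ^ 2 := by
    have : 0 ≤ ‖b‖ * ρ ^ 2 := by positivity
    nlinarith
  have hpi : (NNReal.pi : ENNReal) = ENNReal.ofReal Real.pi := by
    rw [← NNReal.coe_real_pi, ENNReal.ofReal_coe_nnreal]
  have hR1 : 0 ≤ ρ⁻¹ - 2 * ρ ^ 2 * M := by linarith
  have hR2 : 0 ≤ ρ⁻¹ + 2 * ρ ^ 2 * M := by positivity
  have hvol : ∀ R : ℝ, 0 ≤ R → ENNReal.ofReal (1 - (‖b‖ * ρ ^ 2) ^ 2) *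
      (ENNReal.ofReal R ^ 2 * (NNReal.pi : ENNReal)) =
      ENNReal.ofReal ((1 - (‖b‖ * ρ ^ 2) ^ 2) * Real.pi * R ^ 2) := by
    intro R hR
    rw [hpi, ← ENNReal.ofReal_pow hR, ← ENNReal.ofReal_mul (by positivity),
      ← ENNReal.ofReal_mul hd0]
    congr 1
    ring
  constructor
  · refine le_trans (le_of_eq ?_) (measure_mono (atc_inner hM hρ hρ2 hbρ))
    rw [Measure.addHaar_image_continuousLinearMap]
    change _ = ENNReal.ofReal |(Amap (b * (ρ : ℂ) ^ 2)).det| * _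
    rw [hdet, Complex.volume_ball, hvol _ hR1]
  · refine le_trans (measure_mono (atc_outer hT hinj hM hρ hρ2 hbρ)) (le_of_eq ?_)
    rw [Measure.addHaar_image_continuousLinearMap]
    change ENNReal.ofReal |(Amap (b * (ρ : ℂ) ^ 2)).det| * _ = _
    rw [hdet, Complex.volume_closedBall, hvol _ hR2]

end Pool.Agent.Helper78.QE
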