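import Pool.Agent.Helper61.QE.St3

/-!
# Project QD, PART E, module FDX: a measurable fundamental domain
-/

open MeasureTheory Set Filter Topology Complex
open scoped ContDiff ComplexConjugate ENNReal

namespace Pool.Agent.Helper78.QE

open Pool.Agent.Helper68.QC
open Pool.Agent.Helper61.QE (D SU Fu FD StSUB StFUX StFDX)

/-- The lexicographic key of a point. -/
noncomputable def key (z : ℂ) : ℝ ×ₗ (ℝ ×ₗ ℝ) := toLex (‖z‖, toLex (z.re, z.im))

lemma key_le {z w : ℂ} : key z ≤ key w ↔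
    ‖z‖ < ‖w‖ ∨ (‖z‖ = ‖w‖ ∧ (z.re < w.re ∨ (z.re = w.re ∧ z.im ≤ w.im))) := by
  unfold key
  rw [Prod.Lex.toLex_le_toLex]
  constructor
  · rintro (h | ⟨h, h'⟩)
    · exact Or.inl h
    · right
      rw [Prod.Lex.toLex_le_toLex] at h'
      exact ⟨h, h'⟩
  · rintro (h | ⟨h, h'⟩)
    · exact Or.inl h
    · right
      rw [Prod.Lex.toLex_le_toLex]
      exact ⟨h, h'⟩

lemma key_inj {z w : ℂ} (h1 : key z ≤ key w) (h2 : key w ≤ key z) : z = w := by
  rw [key_le] at h1 h2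
  rcases h1 with h1 | ⟨h1, h1'⟩
  · rcases h2 with h2 | ⟨h2, h2'⟩
    · exact absurd h1 (not_lt.mpr h2.le)
    · rw [h2] at h1
      exact absurd h1 (lt_irrefl _)
  · rcases h2 with h2 | ⟨h2, h2'⟩
    · rw [h1] at h2
      exact absurd h2 (lt_irrefl _)
    · rcases h1' with h | ⟨h, h'⟩
      · rcases h2' with k | ⟨k, k'⟩
        · exact absurd h (not_lt.mpr k.le)
        · rw [k] at h
          exact absurd h (lt_irrefl _)
      · rcases h2' with k | ⟨k, k'⟩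
        · rw [h] at k
          exact absurd k (lt_irrefl _)
        · exact Complex.ext h (le_antisymm h' k')

lemma norm_le_of_key {z w : ℂ} (h : key z ≤ key w) : ‖z‖ ≤ ‖w‖ := by
  rw [key_le] at h
  rcases h with h | ⟨h, -⟩
  · exact h.le
  · exact h.le

lemma meas_mob (A : SL) : Measurable (mob A) := by
  have h1 : Measurable (fun z : ℂ => A 0 0 * z + A 0 1) :=
    (measurable_id.const_mul (A 0 0)).add_const (A 0 1)
  have h2 : Measurable (fun z : ℂ => A 1 0 * z + A 1 1) :=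
    (measurable_id.const_mul (A 1 0)).add_const (A 1 1)
  exact h1.div h2

lemma meas_key (A : SL) : MeasurableSet {z : ℂ | key z ≤ key (mob A z)} := by
  have hm := meas_mob A
  have h1 : Measurable (fun z : ℂ => ‖z‖) := measurable_norm
  have h2 : Measurable (fun z : ℂ => ‖mob A z‖) := hm.norm
  have h3 : Measurable (fun z : ℂ => z.re) := Complex.measurable_re
  have h4 : Measurable (fun z : ℂ => (mob A z).re) := Complex.measurable_re.comp hm
  have h5 : Measurable (fun z : ℂ => z.im) := Complex.measurable_im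
  have h6 : Measurable (fun z : ℂ => (mob A z).im) := Complex.measurable_im.comp hm
  have he : {z : ℂ | key z ≤ key (mob A z)} =
      {z : ℂ | ‖z‖ < ‖mob A z‖} ∪ ({z : ℂ | ‖z‖ = ‖mob A z‖} ∩
        ({z : ℂ | z.re < (mob A z).re} ∪ ({z : ℂ | z.re = (mob A z).re} ∩
          {z : ℂ | z.im ≤ (mob A z).im}))) := by
    ext z
    simp only [Set.mem_ofPred_eq, Set.mem_union, Set.mem_inter_iff, key_le]
  rw [he]
  exact (measurableSet_lt h1 h2).union ((measurableSet_eq_fun h1 h2).inter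
    ((measurableSet_lt h3 h4).union ((measurableSet_eq_fun h3 h4).inter
      (measurableSet_le h5 h6))))

/-- The pseudo-hyperbolic estimate in the form needed here. -/
lemma ph (hSUB : StSUB) (z : ℂ) (hz : z ∈ D) (r' : ℝ) (hr' : r' < 1) :
    ∃ r'' < 1, ∀ A : SL, SU A → ‖mob A z‖ ≤ r' → ‖mob A 0‖ ≤ r'' := by
  obtain ⟨-, -, h3, h4, h5, -⟩ := hSUB
  have hz1 : ‖z‖ < 1 := by simpa [D] using hz
  have hzz : 0 < 1 - ‖z‖ ^ 2 := by nlinarith [norm_nonneg z]
  set K : ℝ := ‖z‖ ^ 2 / (1 - ‖z‖ ^ 2) + 1 with hK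
  have hK0 : 0 < K := by positivity
  set ε : ℝ := ((1 - r') / 2) ^ 2 / K with hε
  have hε0 : 0 < ε := by
    have : 0 < (1 - r') / 2 := by linarith
    positivity
  refine ⟨max ((1 + r') / 2) (Real.sqrt (1 - ε)), ?_, ?_⟩
  · apply max_lt
    · linarith
    · rw [Real.sqrt_lt' one_pos]
      linarith
  · intro A hA hx
    rcases le_or_gt ‖mob A 0‖ ((1 + r') / 2) with hle | hgt
    · exact hle.trans (le_max_left _ _)
    · refine le_trans ?_ (le_max_right _ _)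
      apply Real.le_sqrt_of_sq_le
      have hdz : den A z ≠ 0 := h4 A hA z hz1.le
      have hd0 : den A 0 ≠ 0 := h4 A hA 0 (by simp)
      have e1 := h5 A hA z hdz
      have e2 := h5 A hA 0 hd0
      have e3 := h3 A z 0 hdz hd0
      set x := mob A z with hxdef
      set y := mob A 0 with hydef
      have e4 : ‖x - y‖ * (‖den A z‖ * ‖den A 0‖) = ‖z‖ := by
        rw [e3, norm_div, norm_mul, sub_zero]
        have : ‖den A z‖ * ‖den A 0‖ ≠ 0 := by
          simp [hdz, hd0]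
        field_simp
      simp only [norm_zero, ne_eq, OfNat.ofNat_ne_zero, not_false_eq_true, zero_pow, sub_zero] at e2
      have hdz0 : 0 < ‖den A z‖ := norm_pos_iff.mpr hdz
      have hd00 : 0 < ‖den A 0‖ := norm_pos_iff.mpr hd0
      have hP : ‖x - y‖ ^ 2 * (1 - ‖z‖ ^ 2) = ‖z‖ ^ 2 * (1 - ‖x‖ ^ 2) * (1 - ‖y‖ ^ 2) := by
        have a1 : ‖x - y‖ ^ 2 * (‖den A z‖ ^ 2 * ‖den A 0‖ ^ 2) = ‖z‖ ^ 2 := by
          rw [← e4]; ring
        have a2 : ‖z‖ ^ 2 * (1 - ‖x‖ ^ 2) * (1 - ‖y‖ ^ 2) =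
            ‖x - y‖ ^ 2 * (((1 - ‖x‖ ^ 2) * ‖den A z‖ ^ 2) * ((1 - ‖y‖ ^ 2) * ‖den A 0‖ ^ 2)) := by
          rw [← a1]; ring
        rw [a2, e1, e2]; ring
      have hxy : ‖y‖ - ‖x‖ ≤ ‖x - y‖ := by
        have := norm_sub_norm_le y x
        rwa [norm_sub_rev] at this
      have hb : (1 - r') / 2 ≤ ‖x - y‖ := by linarith
      have hb2 : ((1 - r') / 2) ^ 2 ≤ ‖x - y‖ ^ 2 := by
        have : 0 ≤ (1 - r') / 2 := by linarith
        exact pow_le_pow_left₀ this hb 2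
      have hy2 : 0 ≤ 1 - ‖y‖ ^ 2 := by
        have : 0 < ‖den A 0‖ ^ 2 := by positivity
        by_contra hcon
        push Not at hcon
        nlinarith
      have hle : ‖x - y‖ ^ 2 ≤ (‖z‖ ^ 2 / (1 - ‖z‖ ^ 2)) * (1 - ‖y‖ ^ 2) := by
        rw [div_mul_eq_mul_div, le_div_iff₀ hzz, hP]
        have hzx : 0 ≤ ‖z‖ ^ 2 * ‖x‖ ^ 2 := by positivity
        have : ‖z‖ ^ 2 * (1 - ‖x‖ ^ 2) ≤ ‖z‖ ^ 2 := by linarith
        exact mul_le_mul_of_nonneg_right this hy2
      have hle2 : ((1 - r') / 2) ^ 2 ≤ K * (1 - ‖y‖ ^ 2) := by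
        rw [hK]
        nlinarith
      have : ε ≤ 1 - ‖y‖ ^ 2 := by
        rw [hε, div_le_iff₀ hK0]
        linarith
      linarith

lemma mob_one' (z : ℂ) : mob (1 : SL) z = z := by
  simp [mob, den]

theorem pFDX (hSUB : StSUB) (hFUX : StFUX) : StFDX := by
  intro Γ _ s hs
  have hc : Countable Γ := (hFUX Γ s hs).1
  obtain ⟨r, hr, hcoc⟩ := hs.coc
  have h1 := hSUB.1
  have h4 := hSUB.2.2.2.1
  have h5 := hSUB.2.2.2.2.1
  have hden : ∀ γ, ∀ z ∈ D, den (s γ) z ≠ 0 := by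
    intro γ z hz
    have hz1 : ‖z‖ < 1 := by simpa [D] using hz
    exact h4 (s γ) (hs.su γ) z hz1.le
  have hmap : ∀ γ, ∀ z ∈ D, mob (s γ) z ∈ D := by
    intro γ z hz
    have hz1 : ‖z‖ < 1 := by simpa [D] using hz
    have e := h5 (s γ) (hs.su γ) z (hden γ z hz)
    have hd : 0 < ‖den (s γ) z‖ ^ 2 := by
      have := norm_pos_iff.mpr (hden γ z hz)
      positivity
    have hzz : 0 < 1 - ‖z‖ ^ 2 := by nlinarith [norm_nonneg z]
    have hp : 0 < 1 - ‖mob (s γ) z‖ ^ 2 := by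
      by_contra hcon
      push Not at hcon
      nlinarith
    have : ‖mob (s γ) z‖ < 1 := by
      by_contra hcon
      push Not at hcon
      nlinarith
    simpa [D] using this
  have hact : ∀ γ δ, ∀ z ∈ D, mob (s γ) (mob (s δ) z) = mob (s (γ * δ)) z := by
    intro γ δ z hz
    rw [map_mul]
    exact ((h1 (s γ) (s δ) z (hden δ z hz)).2).symm
  have hone : ∀ z, mob (s 1) z = z := by
    intro z
    rw [map_one]
    exact mob_one' z
  refine ⟨D ∩ ⋂ γ : Γ, {z : ℂ | key z ≤ key (mob (s γ) z)}, ?_, ?_, ?_, ?_⟩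
  · exact measurableSet_ball.inter (MeasurableSet.iInter fun γ => meas_key (s γ))
  · refine ⟨r, hr, ?_⟩
    rintro z ⟨hz, hk⟩
    obtain ⟨γ, hγ⟩ := hcoc z hz
    have hk' := Set.mem_iInter.mp hk γ
    exact (norm_le_of_key hk').trans hγ
  · intro z hz
    obtain ⟨r'', hr'', hph⟩ := ph hSUB z hz r hr
    have hfin : {γ : Γ | ‖mob (s γ) z‖ ≤ r}.Finite :=
      (hs.disc r'' hr'').subset fun γ hγ => hph (s γ) (hs.su γ) hγ
    obtain ⟨γ1, hγ1⟩ := hcoc z hz
    obtain ⟨γ0, hγ0, hmin⟩ := Set.exists_min_image {γ : Γ | ‖mob (s γ) z‖ ≤ r}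
      (fun γ => key (mob (s γ) z)) hfin ⟨γ1, hγ1⟩
    refine ⟨γ0, hmap γ0 z hz, ?_⟩
    rw [Set.mem_iInter]
    intro γ
    show key (mob (s γ0) z) ≤ key (mob (s γ) (mob (s γ0) z))
    rw [hact γ γ0 z hz]
    rcases le_or_gt ‖mob (s (γ * γ0)) z‖ r with hle | hgt
    · exact hmin (γ * γ0) hle
    · rw [key_le]
      left
      exact lt_of_le_of_lt hγ0 hgt
  · rintro z ⟨hz, hk⟩ γ ⟨hz', hk'⟩
    have a1 : key z ≤ key (mob (s γ) z) := Set.mem_iInter.mp hk γ
    have a2 : key (mob (s γ) z) ≤ key (mob (s γ⁻¹) (mob (s γ) z)) := Set.mem_iInter.mp hk' γ⁻¹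
    rw [hact γ⁻¹ γ z hz, inv_mul_cancel, hone] at a2
    by_contra hne
    exact hs.free γ hne z hz (key_inj a1 a2).symm

end Pool.Agent.Helper78.QE
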