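import Pool.Agent.Helper61.QE.St6
import Pool.Agent.Helper68.QC.Cal

/-! QE MODULE RPG (project QD part E, MP_d112a4_gt): the deformed group, general coefficient. -/

set_option autoImplicit false

open MeasureTheory Set Filter Topology Complex
open scoped ContDiff ComplexConjugate ENNReal

namespace Pool.Agent.Helper78.QE

open Pool.Agent.Helper61.QE Pool.Agent.Helper68.QC

theorem pRPG (hUNI : Pool.Agent.Helper68.QC.StUNI) (hREP : Pool.Agent.Helper68.QC.StREP) :
    Pool.Agent.Helper61.QE.StRPG := by
  intro Γ _ s μ k hk hB hinv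
  have hk0 : 0 ≤ k := (norm_nonneg _).trans (hB.le 0)
  -- the identity solves the equation with coefficient zero
  have hB0 : Bel (1 / 2) (fun _ => (0 : ℂ)) :=
    ⟨measurable_const, fun z => by rw [norm_zero]; norm_num⟩
  have hid : Homeomorph.refl ℂ = nq (fun _ => (0 : ℂ)) := by
    apply hUNI (1 / 2) (by norm_num) _ hB0 (Homeomorph.refl ℂ) rfl rfl ∅ finite_empty
    rw [compl_empty]
    exact sol_zero isOpen_univ differentiableOn_id (Eventually.of_forall fun _ => rfl)
  obtain ⟨r, hr⟩ : ∃ r : ℝ, r = 2 / (1 + k) := ⟨_, rfl⟩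
  have h1k : 0 < 1 + k := by linarith
  have hr1 : 1 < r := by
    rw [hr, lt_div_iff₀ h1k]
    linarith
  have hkr : k * r < 1 := by
    have e1 : k * r = 2 * k / (1 + k) := by rw [hr]; ring
    rw [e1, div_lt_one h1k]
    linarith
  obtain ⟨ρ1, -, -, hI1⟩ := hREP (k * r) hkr 0 r (fun τ z => τ * μ z)
    (by
      intro τ hτ
      have hτ' : ‖τ‖ < r := by simpa using hτ
      refine ⟨hB.meas.const_mul τ, fun z => ?_⟩
      rw [norm_mul, mul_comm k r]
      exact mul_le_mul hτ'.le (hB.le z) (norm_nonneg _) (by linarith))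
    (by
      intro z
      exact (differentiable_id.mul_const (μ z)).differentiableOn)
    Γ _ s s
    (by
      intro τ _ γ
      filter_upwards [hinv γ] with z hz
      rw [mul_assoc, hz, mul_assoc])
    (by
      intro γ
      have e1 : (fun z => (0 : ℂ) * μ z) = fun _ => (0 : ℂ) := by
        funext z
        rw [zero_mul]
      rw [e1, ← hid]
      exact ⟨fun z => Iff.rfl, fun z _ => rfl, Iff.rfl, fun _ => rfl⟩)
    (by linarith)
  refine ⟨ρ1 1, fun γ => ?_⟩
  have h2 := hI1 1 (by simpa using hr1) γ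
  have e1 : (fun z => (1 : ℂ) * μ z) = μ := by
    funext z
    rw [one_mul]
  rw [e1] at h2
  exact h2

end Pool.Agent.Helper78.QE
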